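import Pool.Agent.helper14.XG.Spec

/-!
# Row xg:UPV (MP_51d945_co): the gadget tuples over a pair through a given internal vertex
-/

set_option autoImplicit false

namespace Pool.Agent.XG

open Finset Pool.Agent.XT

theorem UPV_mem {n : ℕ} {B : FS n} {Nr : Fin n → Fin n → Prop}
    {F : Fin n → Fin n → Finset (VV n)} {t t' : ℝ}
    {q : (Fin 3 → Fin n) × (Fin 3 → Fin n) × (P8 → Fin n)} (hq : q ∈ TG B Nr F t t') (p : P8) :
    Lt B Nr (q.1 p.1.2) (q.2.1 p.1.1) ∧ (q.1 p.1.2, q.2.2 p) ∈ B ∧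
      (q.2.1 p.1.1, q.2.2 p) ∈ B := by
  classical
  unfold TG at hq
  have h1 := (Finset.mem_filter.1 hq).2.1
  obtain ⟨p', hp1, hp2⟩ : ∃ p' : P8, p.1.1 = p'.1.1 ∧ p.1.2 ≠ p'.1.2 := by
    revert p
    decide
  have h2 := h1 p p' hp1 hp2
  exact ⟨h2.1, h2.2.2.1, h2.2.2.2.1⟩

open Classical in
/-- The flags on lines through `c`. -/
noncomputable def UPV_fl {n : ℕ} (B : FS n) (c : Fin n) : Finset (Fin n × Fin n) :=
  Finset.univ.filter (fun e => (c, e.2) ∈ B ∧ (e.1, e.2) ∈ B)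

open Classical in
/-- The common lines of `w` and `c` if this is a light pair. -/
noncomputable def UPV_s1 {n : ℕ} (B : FS n) (Nr : Fin n → Fin n → Prop) (c w : Fin n) :
    Finset (Fin n × Fin n) :=
  Finset.univ.filter (fun e => e.1 = w ∧ Lt B Nr w c ∧ e.2 ∈ com B w c)

open Classical in
/-- Points `z` on `w`, light with `c`, and a common line of `z` and `c`. -/
noncomputable def UPV_s2 {n : ℕ} (B : FS n) (Nr : Fin n → Fin n → Prop) (c w : Fin n) :
    Finset (Fin n × Fin n) :=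
  Finset.univ.filter (fun e => (e.1, w) ∈ B ∧ Lt B Nr e.1 c ∧ e.2 ∈ com B e.1 c)

theorem UPV_fl_card {n D : ℕ} {B : FS n} (hD : Dg B D) (c : Fin n) :
    (UPV_fl B c).card ≤ D * D := by
  classical
  have h1 : UPV_fl B c ⊆ (dP B c).biUnion (fun l => (dL B l).image (fun z => (z, l))) := by
    intro e he
    unfold UPV_fl at he
    have h2 := (Finset.mem_filter.1 he).2
    rw [Finset.mem_biUnion]
    refine ⟨e.2, Finset.mem_filter.2 ⟨Finset.mem_univ _, h2.1⟩, ?_⟩
    rw [Finset.mem_image]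
    exact ⟨e.1, Finset.mem_filter.2 ⟨Finset.mem_univ _, h2.2⟩, rfl⟩
  refine (Finset.card_le_card h1).trans ?_
  refine (Finset.card_biUnion_le_card_mul _ _ D ?_).trans (Nat.mul_le_mul_right _ (hD.pu c))
  intro l _
  exact Finset.card_image_le.trans (hD.lu l)

theorem UPV_s1_card {n : ℕ} (B : FS n) (Nr : Fin n → Fin n → Prop) (c w : Fin n) :
    (UPV_s1 B Nr c w).card ≤ KK := by
  classical
  by_cases h : Lt B Nr w c
  · have h1 : UPV_s1 B Nr c w ⊆ (com B w c).image (fun l => (w, l)) := by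
      intro e he
      unfold UPV_s1 at he
      have h2 := (Finset.mem_filter.1 he).2
      rw [Finset.mem_image]
      exact ⟨e.2, h2.2.2, Prod.ext h2.1.symm rfl⟩
    exact (Finset.card_le_card h1).trans (Finset.card_image_le.trans h.2.2.2)
  · have h1 : UPV_s1 B Nr c w = ∅ := by
      unfold UPV_s1
      rw [Finset.filter_eq_empty_iff]
      intro e _ h2
      exact h h2.2.1
    rw [h1, Finset.card_empty]
    exact Nat.zero_le _

theorem UPV_s2_card {n D : ℕ} {B : FS n} (Nr : Fin n → Fin n → Prop) (hD : Dg B D)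
    (c w : Fin n) : (UPV_s2 B Nr c w).card ≤ D * KK := by
  classical
  have h1 : UPV_s2 B Nr c w ⊆ (dL B w).biUnion (fun z => UPV_s1 B Nr c z) := by
    intro e he
    unfold UPV_s2 at he
    have h2 := (Finset.mem_filter.1 he).2
    rw [Finset.mem_biUnion]
    refine ⟨e.1, Finset.mem_filter.2 ⟨Finset.mem_univ _, h2.1⟩, ?_⟩
    unfold UPV_s1
    exact Finset.mem_filter.2 ⟨Finset.mem_univ _, rfl, h2.2.1, h2.2.2⟩
  refine (Finset.card_le_card h1).trans ?_
  refine (Finset.card_biUnion_le_card_mul _ _ KK ?_).trans (Nat.mul_le_mul_right _ (hD.lu w))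
  intro z _
  exact UPV_s1_card B Nr c z

open Classical in
theorem UPV_cnt {α : Type} {n : ℕ} (Z : Finset α) (A0 A1 : Finset (Fin n × Fin n))
    (f0 f1 : α → Fin n × Fin n) (T : ℝ) (M : ℕ) (hM : A0.card * A1.card ≤ M) (hT : 0 ≤ T)
    (h0 : ∀ q ∈ Z, f0 q ∈ A0) (h1 : ∀ q ∈ Z, f1 q ∈ A1)
    (hf : ∀ e0 e1 : Fin n × Fin n,
      ((Z.filter (fun q => f0 q = e0 ∧ f1 q = e1)).card : ℝ) ≤ T) :
    (Z.card : ℝ) ≤ M * T := by
  have h2 : Z.card = ∑ e ∈ A0 ×ˢ A1, (Z.filter (fun q => (f0 q, f1 q) = e)).card :=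
    Finset.card_eq_sum_card_fiberwise (fun q hq => Finset.mem_product.2 ⟨h0 q hq, h1 q hq⟩)
  rw [h2, Nat.cast_sum]
  calc ∑ e ∈ A0 ×ˢ A1, ((Z.filter (fun q => (f0 q, f1 q) = e)).card : ℝ)
      ≤ ∑ e ∈ A0 ×ˢ A1, T := by
        refine Finset.sum_le_sum fun e _ => ?_
        have h3 := hf e.1 e.2
        have h4 : (Z.filter (fun q => (f0 q, f1 q) = e)) =
            (Z.filter (fun q => f0 q = e.1 ∧ f1 q = e.2)) := by
          refine Finset.filter_congr fun q _ => ?_
          rw [Prod.ext_iff]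
        rw [h4]
        exact h3
    _ = ((A0 ×ˢ A1).card : ℝ) * T := by rw [Finset.sum_const, nsmul_eq_mul]
    _ ≤ M * T := by
        refine mul_le_mul_of_nonneg_right ?_ hT
        rw [Finset.card_product]
        exact_mod_cast hM

theorem UPV (hBAS : BAS_stmt) (hCPA : CPA_stmt) (hCPB : CPB_stmt) : UPV_stmt := by
  classical
  intro n D B Nr F hS hD hD0 t t' ht htt a b v
  have hLs := (hBAS n B Nr F hS).2.1
  have ht' : 1 ≤ t' := ht.trans htt
  obtain ⟨T, hTdef⟩ : ∃ T : ℝ, T = (60020 * (KK : ℝ) ^ 3 * t') ^ 2 := ⟨_, rfl⟩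
  have hT : 0 ≤ T := by
    rw [hTdef]
    positivity
  have hTt : (60020 * (KK : ℝ) ^ 3 * t) ^ 2 ≤ T := by
    rw [hTdef]
    have h1 : 0 ≤ 60020 * (KK : ℝ) ^ 3 := by positivity
    exact pow_le_pow_left₀ (mul_nonneg h1 (by linarith)) (mul_le_mul_of_nonneg_left htt h1) 2
  -- the size of the data
  have size1 : ∀ c w c' : Fin n, (UPV_s1 B Nr c w).card * (UPV_fl B c').card ≤ KK * D ^ 3 := by
    intro c w c'
    calc (UPV_s1 B Nr c w).card * (UPV_fl B c').card ≤ KK * (D * D) :=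
          Nat.mul_le_mul (UPV_s1_card B Nr c w) (UPV_fl_card hD c')
      _ ≤ KK * D ^ 3 := by
          refine Nat.mul_le_mul_left _ ?_
          calc D * D = D * D * 1 := by ring
            _ ≤ D * D * D := Nat.mul_le_mul_left _ hD0
            _ = D ^ 3 := by ring
  have size2 : ∀ c w c' : Fin n, (UPV_s2 B Nr c w).card * (UPV_fl B c').card ≤ KK * D ^ 3 := by
    intro c w c'
    calc (UPV_s2 B Nr c w).card * (UPV_fl B c').card ≤ (D * KK) * (D * D) :=
          Nat.mul_le_mul (UPV_s2_card Nr hD c w) (UPV_fl_card hD c')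
      _ = KK * D ^ 3 := by ring
  obtain ⟨Z, hZ⟩ : ∃ Z : Finset ((Fin 3 → Fin n) × (Fin 3 → Fin n) × (P8 → Fin n)),
      Z = (TG B Nr F t t').filter (fun q => q.1 2 = a ∧ q.2.1 2 = b ∧
        v ∈ inn q.2.1 q.1 q.2.2) := ⟨_, rfl⟩
  have hZm : ∀ q ∈ Z, q ∈ TG B Nr F t t' ∧ q.1 2 = a ∧ q.2.1 2 = b ∧
      v ∈ inn q.2.1 q.1 q.2.2 := by
    intro q hq
    rw [hZ] at hq
    exact Finset.mem_filter.1 hq
  -- facts about the tuples
  have fA0 : ∀ q ∈ Z, Lt B Nr (q.1 0) b ∧ (q.1 0, q.2.2 ⟨(2, 0), by decide⟩) ∈ B ∧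
      (b, q.2.2 ⟨(2, 0), by decide⟩) ∈ B := by
    intro q hq
    have h1 := UPV_mem (hZm q hq).1 ⟨(2, 0), by decide⟩
    rw [← (hZm q hq).2.2.1]
    exact h1
  have fA1 : ∀ q ∈ Z, Lt B Nr (q.1 1) b ∧ (q.1 1, q.2.2 ⟨(2, 1), by decide⟩) ∈ B ∧
      (b, q.2.2 ⟨(2, 1), by decide⟩) ∈ B := by
    intro q hq
    have h1 := UPV_mem (hZm q hq).1 ⟨(2, 1), by decide⟩
    rw [← (hZm q hq).2.2.1]
    exact h1
  have fB0 : ∀ q ∈ Z, Lt B Nr (q.2.1 0) a ∧ (q.2.1 0, q.2.2 ⟨(0, 2), by decide⟩) ∈ B ∧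
      (a, q.2.2 ⟨(0, 2), by decide⟩) ∈ B := by
    intro q hq
    have h1 := UPV_mem (hZm q hq).1 ⟨(0, 2), by decide⟩
    rw [← (hZm q hq).2.1]
    exact ⟨hLs _ _ h1.1, h1.2.2, h1.2.1⟩
  have fB1 : ∀ q ∈ Z, Lt B Nr (q.2.1 1) a ∧ (q.2.1 1, q.2.2 ⟨(1, 2), by decide⟩) ∈ B ∧
      (a, q.2.2 ⟨(1, 2), by decide⟩) ∈ B := by
    intro q hq
    have h1 := UPV_mem (hZm q hq).1 ⟨(1, 2), by decide⟩
    rw [← (hZm q hq).2.1]
    exact ⟨hLs _ _ h1.1, h1.2.2, h1.2.1⟩
  -- counting lemmas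
  have cA : ∀ (Z' : Finset ((Fin 3 → Fin n) × (Fin 3 → Fin n) × (P8 → Fin n)))
      (A0 A1 : Finset (Fin n × Fin n)), Z' ⊆ Z → A0.card * A1.card ≤ KK * D ^ 3 →
      (∀ q ∈ Z', (q.1 0, q.2.2 ⟨(2, 0), by decide⟩) ∈ A0) →
      (∀ q ∈ Z', (q.1 1, q.2.2 ⟨(2, 1), by decide⟩) ∈ A1) →
      (Z'.card : ℝ) ≤ (KK * D ^ 3 : ℕ) * T := by
    intro Z' A0 A1 hsub hM h0 h1
    refine UPV_cnt Z' A0 A1 (fun q => (q.1 0, q.2.2 ⟨(2, 0), by decide⟩))
      (fun q => (q.1 1, q.2.2 ⟨(2, 1), by decide⟩)) T _ hM hT h0 h1 ?_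
    intro e0 e1
    refine (hCPA n B Nr F hS t t' ht a b e0.1 e1.1 e0.2 e1.2 _ ?_).trans hTt
    intro q hq
    have h2 := Finset.mem_filter.1 hq
    have h3 := hZm q (hsub h2.1)
    exact ⟨h3.1, h3.2.1, h3.2.2.1, congrArg Prod.fst h2.2.1, congrArg Prod.fst h2.2.2,
      congrArg Prod.snd h2.2.1, congrArg Prod.snd h2.2.2⟩
  have cB : ∀ (Z' : Finset ((Fin 3 → Fin n) × (Fin 3 → Fin n) × (P8 → Fin n)))
      (A0 A1 : Finset (Fin n × Fin n)), Z' ⊆ Z → A0.card * A1.card ≤ KK * D ^ 3 →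
      (∀ q ∈ Z', (q.2.1 0, q.2.2 ⟨(0, 2), by decide⟩) ∈ A0) →
      (∀ q ∈ Z', (q.2.1 1, q.2.2 ⟨(1, 2), by decide⟩) ∈ A1) →
      (Z'.card : ℝ) ≤ (KK * D ^ 3 : ℕ) * T := by
    intro Z' A0 A1 hsub hM h0 h1
    refine UPV_cnt Z' A0 A1 (fun q => (q.2.1 0, q.2.2 ⟨(0, 2), by decide⟩))
      (fun q => (q.2.1 1, q.2.2 ⟨(1, 2), by decide⟩)) T _ hM hT h0 h1 ?_
    intro e0 e1
    refine (hCPB n B Nr F hS t t' ht' a b e0.1 e1.1 e0.2 e1.2 _ ?_).trans hTdef.ge
    intro q hq
    have h2 := Finset.mem_filter.1 hq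
    have h3 := hZm q (hsub h2.1)
    exact ⟨h3.1, h3.2.1, h3.2.2.1, congrArg Prod.fst h2.2.1, congrArg Prod.fst h2.2.2,
      congrArg Prod.snd h2.2.1, congrArg Prod.snd h2.2.2⟩
  -- membership in the data sets
  have mfl : ∀ {c z l : Fin n}, (c, l) ∈ B → (z, l) ∈ B → (z, l) ∈ UPV_fl B c := by
    intro c z l h1 h2
    unfold UPV_fl
    exact Finset.mem_filter.2 ⟨Finset.mem_univ _, h1, h2⟩
  have mcom : ∀ {c z l : Fin n}, (c, l) ∈ B → (z, l) ∈ B → l ∈ com B z c := by
    intro c z l h1 h2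
    unfold com
    exact Finset.mem_filter.2 ⟨Finset.mem_univ _, h2, h1⟩
  have ms1 : ∀ {c z l : Fin n}, Lt B Nr z c → (c, l) ∈ B → (z, l) ∈ B →
      (z, l) ∈ UPV_s1 B Nr c z := by
    intro c z l h0 h1 h2
    unfold UPV_s1
    exact Finset.mem_filter.2 ⟨Finset.mem_univ _, rfl, h0, mcom h1 h2⟩
  have ms2 : ∀ {c z l w : Fin n}, (z, w) ∈ B → Lt B Nr z c → (c, l) ∈ B → (z, l) ∈ B →
      (z, l) ∈ UPV_s2 B Nr c w := by
    intro c z l w hw h0 h1 h2
    unfold UPV_s2
    exact Finset.mem_filter.2 ⟨Finset.mem_univ _, hw, h0, mcom h1 h2⟩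
  have hgoal : (Z.card : ℝ) ≤ 12 * ((KK * D ^ 3 : ℕ) * T) := by
    have hnn : 0 ≤ ((KK * D ^ 3 : ℕ) : ℝ) * T := by positivity
    rcases v with w | w
    · -- a point
      have hcov : Z ⊆ ((Z.filter (fun q => q.2.1 0 = w)) ∪ (Z.filter (fun q => q.2.1 1 = w))) ∪
          ((Z.filter (fun q => q.1 0 = w)) ∪ (Z.filter (fun q => q.1 1 = w))) := by
        intro q hq
        have h1 := (hZm q hq).2.2.2
        unfold inn at h1
        simp only [Finset.mem_union, Finset.mem_insert, Finset.mem_singleton, Sum.inl.injEq,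
          Finset.mem_image, Finset.mem_univ, true_and, reduceCtorEq, exists_false,
          or_false] at h1
        simp only [Finset.mem_union, Finset.mem_filter]
        rcases h1 with h1 | h1 | h1 | h1
        · exact Or.inl (Or.inl ⟨hq, h1.symm⟩)
        · exact Or.inl (Or.inr ⟨hq, h1.symm⟩)
        · exact Or.inr (Or.inl ⟨hq, h1.symm⟩)
        · exact Or.inr (Or.inr ⟨hq, h1.symm⟩)
      have c1 : ((Z.filter (fun q => q.2.1 0 = w)).card : ℝ) ≤ (KK * D ^ 3 : ℕ) * T := by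
        refine cB _ (UPV_s1 B Nr a w) (UPV_fl B a) (Finset.filter_subset _ _) (size1 _ _ _) ?_ ?_
        · intro q hq
          obtain ⟨h1, h2⟩ := Finset.mem_filter.1 hq
          have h3 := fB0 q h1
          have h4 := ms1 h3.1 h3.2.2 h3.2.1
          rw [← h2]
          exact h4
        · intro q hq
          have h3 := fB1 q (Finset.mem_filter.1 hq).1
          exact mfl h3.2.2 h3.2.1
      have c2 : ((Z.filter (fun q => q.2.1 1 = w)).card : ℝ) ≤ (KK * D ^ 3 : ℕ) * T := by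
        refine cB _ (UPV_fl B a) (UPV_s1 B Nr a w) (Finset.filter_subset _ _)
          (by rw [mul_comm]; exact size1 _ _ _) ?_ ?_
        · intro q hq
          have h3 := fB0 q (Finset.mem_filter.1 hq).1
          exact mfl h3.2.2 h3.2.1
        · intro q hq
          obtain ⟨h1, h2⟩ := Finset.mem_filter.1 hq
          have h3 := fB1 q h1
          have h4 := ms1 h3.1 h3.2.2 h3.2.1
          rw [← h2]
          exact h4
      have c3 : ((Z.filter (fun q => q.1 0 = w)).card : ℝ) ≤ (KK * D ^ 3 : ℕ) * T := by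
        refine cA _ (UPV_s1 B Nr b w) (UPV_fl B b) (Finset.filter_subset _ _) (size1 _ _ _) ?_ ?_
        · intro q hq
          obtain ⟨h1, h2⟩ := Finset.mem_filter.1 hq
          have h3 := fA0 q h1
          have h4 := ms1 h3.1 h3.2.2 h3.2.1
          rw [← h2]
          exact h4
        · intro q hq
          have h3 := fA1 q (Finset.mem_filter.1 hq).1
          exact mfl h3.2.2 h3.2.1
      have c4 : ((Z.filter (fun q => q.1 1 = w)).card : ℝ) ≤ (KK * D ^ 3 : ℕ) * T := by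
        refine cA _ (UPV_fl B b) (UPV_s1 B Nr b w) (Finset.filter_subset _ _)
          (by rw [mul_comm]; exact size1 _ _ _) ?_ ?_
        · intro q hq
          have h3 := fA0 q (Finset.mem_filter.1 hq).1
          exact mfl h3.2.2 h3.2.1
        · intro q hq
          obtain ⟨h1, h2⟩ := Finset.mem_filter.1 hq
          have h3 := fA1 q h1
          have h4 := ms1 h3.1 h3.2.2 h3.2.1
          rw [← h2]
          exact h4
      have h5 := (Finset.card_le_card hcov).trans ((Finset.card_union_le _ _).trans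
        (add_le_add (Finset.card_union_le _ _) (Finset.card_union_le _ _)))
      have h6 : (Z.card : ℝ) ≤ ((Z.filter (fun q => q.2.1 0 = w)).card +
          (Z.filter (fun q => q.2.1 1 = w)).card) + ((Z.filter (fun q => q.1 0 = w)).card +
          (Z.filter (fun q => q.1 1 = w)).card) := by exact_mod_cast h5
      linarith
    · -- a line
      have hcov : Z ⊆ (Finset.univ : Finset P8).biUnion (fun p =>
          Z.filter (fun q => q.2.2 p = w)) := by
        intro q hq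
        have h1 := (hZm q hq).2.2.2
        unfold inn at h1
        simp only [Finset.mem_union, Finset.mem_insert, Finset.mem_singleton, Sum.inr.injEq,
          Finset.mem_image, Finset.mem_univ, true_and, reduceCtorEq, or_false, false_or] at h1
        obtain ⟨p, hp⟩ := h1
        rw [Finset.mem_biUnion]
        exact ⟨p, Finset.mem_univ _, Finset.mem_filter.2 ⟨hq, hp⟩⟩
      have each : ∀ p : P8, ((Z.filter (fun q => q.2.2 p = w)).card : ℝ) ≤
          (KK * D ^ 3 : ℕ) * T := by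
        intro p
        have hon : ∀ q ∈ Z.filter (fun q => q.2.2 p = w), q ∈ Z ∧ (q.1 p.1.2, w) ∈ B ∧
            (q.2.1 p.1.1, w) ∈ B := by
          intro q hq
          obtain ⟨h1, h2⟩ := Finset.mem_filter.1 hq
          have h3 := UPV_mem (hZm q h1).1 p
          rw [h2] at h3
          exact ⟨h1, h3.2.1, h3.2.2⟩
        have hp : p.1.2 = 0 ∨ p.1.2 = 1 ∨ (p.1.2 = 2 ∧ p.1.1 = 0) ∨ (p.1.2 = 2 ∧ p.1.1 = 1) := by
          clear hon
          revert p
          decide
        rcases hp with hp | hp | hp | hp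
        · refine cA _ (UPV_s2 B Nr b w) (UPV_fl B b) (Finset.filter_subset _ _)
            (size2 _ _ _) ?_ ?_
          · intro q hq
            have h1 := hon q hq
            rw [hp] at h1
            have h3 := fA0 q h1.1
            exact ms2 h1.2.1 h3.1 h3.2.2 h3.2.1
          · intro q hq
            have h3 := fA1 q (hon q hq).1
            exact mfl h3.2.2 h3.2.1
        · refine cA _ (UPV_fl B b) (UPV_s2 B Nr b w) (Finset.filter_subset _ _)
            (by rw [mul_comm]; exact size2 _ _ _) ?_ ?_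
          · intro q hq
            have h3 := fA0 q (hon q hq).1
            exact mfl h3.2.2 h3.2.1
          · intro q hq
            have h1 := hon q hq
            rw [hp] at h1
            have h3 := fA1 q h1.1
            exact ms2 h1.2.1 h3.1 h3.2.2 h3.2.1
        · refine cB _ (UPV_s2 B Nr a w) (UPV_fl B a) (Finset.filter_subset _ _)
            (size2 _ _ _) ?_ ?_
          · intro q hq
            have h1 := hon q hq
            rw [hp.2] at h1
            have h3 := fB0 q h1.1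
            exact ms2 h1.2.2 h3.1 h3.2.2 h3.2.1
          · intro q hq
            have h3 := fB1 q (hon q hq).1
            exact mfl h3.2.2 h3.2.1
        · refine cB _ (UPV_fl B a) (UPV_s2 B Nr a w) (Finset.filter_subset _ _)
            (by rw [mul_comm]; exact size2 _ _ _) ?_ ?_
          · intro q hq
            have h3 := fB0 q (hon q hq).1
            exact mfl h3.2.2 h3.2.1
          · intro q hq
            have h1 := hon q hq
            rw [hp.2] at h1
            have h3 := fB1 q h1.1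
            exact ms2 h1.2.2 h3.1 h3.2.2 h3.2.1
      have h5 : Z.card ≤ ∑ p : P8, (Z.filter (fun q => q.2.2 p = w)).card :=
        (Finset.card_le_card hcov).trans Finset.card_biUnion_le
      have h6 : (Z.card : ℝ) ≤ ∑ p : P8, ((Z.filter (fun q => q.2.2 p = w)).card : ℝ) := by
        exact_mod_cast h5
      have h7 : ∑ p : P8, ((Z.filter (fun q => q.2.2 p = w)).card : ℝ) ≤
          ∑ _p : P8, ((KK * D ^ 3 : ℕ) : ℝ) * T := Finset.sum_le_sum fun p _ => each p
      have h8 : ∑ _p : P8, ((KK * D ^ 3 : ℕ) : ℝ) * T = 8 * (((KK * D ^ 3 : ℕ) : ℝ) * T) := by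
        rw [Finset.sum_const, nsmul_eq_mul]
        have h9 : (Finset.univ : Finset P8).card = 8 := by decide
        rw [h9]
        norm_num
      linarith
  rw [← hZ, ← hTdef]
  refine hgoal.trans (le_of_eq ?_)
  push_cast
  ring

end Pool.Agent.XG
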